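import Mathlib

/-!
# A plateau in the paint cost spectrum before the frugal distinguishing number

The graph is the 9-cycle `0,1,…,8` with two pendant vertices at each of `0`, `3` and `6`.
It has distinguishing number `2`, fixing number `3`, paint costs `ρ² = ρ³ = 4` and `ρ⁴ = 3`, and
frugal distinguishing number `4`.
-/

set_option autoImplicit false

namespace Pool.Agent.Results.MP_8484b9_co.Plateau

open Finset

variable {V : Type} [Fintype V]

/-- `c` is a distinguishing colouring: the identity is the only automorphism preserving every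
colour class. -/
def IsDistinguishing (G : SimpleGraph V) {d : ℕ} (c : V → Fin d) : Prop :=
  ∀ φ : G ≃g G, (∀ v, c (φ v) = c v) → ∀ v, φ v = v

/-- `S` is a fixing set: the identity is the only automorphism fixing every vertex of `S`. -/
def IsFixing (G : SimpleGraph V) (S : Finset V) : Prop :=
  ∀ φ : G ≃g G, (∀ v ∈ S, φ v = v) → ∀ v, φ v = v

/-- the distinguishing number `D(G)` -/
noncomputable def distNumber (G : SimpleGraph V) : ℕ :=
  sInf {d | ∃ c : V → Fin d, IsDistinguishing G c}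

/-- the fixing number `Fix(G)` -/
noncomputable def fixNumber (G : SimpleGraph V) : ℕ :=
  sInf {k | ∃ S : Finset V, S.card = k ∧ IsFixing G S}

/-- the paint cost `ρ^d(G)`: the least size of the complement of a colour class of a
`d`-distinguishing colouring -/
noncomputable def paintCost (G : SimpleGraph V) (d : ℕ) : ℕ :=
  sInf {k | ∃ c : V → Fin d, IsDistinguishing G c ∧
    ∃ i : Fin d, (univ.filter (fun v => c v ≠ i)).card = k}

/-- the frugal distinguishing number `F(G)` -/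
noncomputable def frugalNumber (G : SimpleGraph V) : ℕ :=
  sInf {d | distNumber G ≤ d ∧ paintCost G d = fixNumber G}

/-! ### the graph -/

/-- the edges of the example -/
def edges : List (Fin 15 × Fin 15) :=
  [(0,1),(1,2),(2,3),(3,4),(4,5),(5,6),(6,7),(7,8),(8,0),(0,9),(0,10),(3,11),(3,12),(6,13),(6,14)]

/-- the 9-cycle `0,…,8` with two pendant vertices at each of `0`, `3`, `6` -/
def G : SimpleGraph (Fin 15) where
  Adj x y := (x, y) ∈ edges ∨ (y, x) ∈ edges
  symm := ⟨fun _ _ h => h.symm⟩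
  loopless := ⟨by decide⟩

instance : DecidableRel G.Adj := fun x y =>
  inferInstanceAs (Decidable ((x, y) ∈ edges ∨ (y, x) ∈ edges))

/-- an involutive automorphism -/
def invol (f : Fin 15 → Fin 15) (h1 : ∀ x, f (f x) = x)
    (h2 : ∀ x y, G.Adj (f x) (f y) ↔ G.Adj x y) : G ≃g G where
  toFun := f
  invFun := f
  left_inv := h1
  right_inv := h1
  map_rel_iff' := by
    intro x y
    exact h2 x y

theorem kill {d : ℕ} {c : Fin 15 → Fin d} (hc : IsDistinguishing G c) (f : Fin 15 → Fin 15)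
    (h1 : ∀ x, f (f x) = x) (h2 : ∀ x y, G.Adj (f x) (f y) ↔ G.Adj x y)
    (h3 : ∀ v, c (f v) = c v) : ∀ v, f v = v := by
  intro v
  exact hc (invol f h1 h2) h3 v

/-- one step of colour refinement -/
def refineStep (f : Fin 15 → ℕ) (v : Fin 15) : ℕ :=
  f v * 5 + ∑ u, if G.Adj v u then f u * f u + 1 else 0

theorem refine_preserved (φ : G ≃g G) (f : Fin 15 → ℕ) (h : ∀ v, f (φ v) = f v) (v : Fin 15) :
    refineStep f (φ v) = refineStep f v := by
  have h3 : (∑ u, if G.Adj (φ v) u then f u * f u + 1 else 0) =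
      ∑ u, if G.Adj v u then f u * f u + 1 else 0 := by
    rw [← Equiv.sum_comp φ.toEquiv]
    refine Finset.sum_congr rfl (fun u _ => ?_)
    have h1 : G.Adj (φ v) (φ.toEquiv u) ↔ G.Adj v u := φ.map_rel_iff
    have h2 : f (φ.toEquiv u) = f u := h u
    by_cases h4 : G.Adj v u
    · rw [if_pos h4, if_pos (h1.mpr h4), h2]
    · rw [if_neg h4, if_neg (fun h5 => h4 (h1.mp h5))]
  unfold refineStep
  rw [h v, h3]

/-- if three refinement steps separate all vertices, only the identity preserves `f` -/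
theorem rigid (φ : G ≃g G) (f f1 f2 f3 : Fin 15 → ℕ) (h : ∀ v, f (φ v) = f v)
    (h1 : ∀ v, refineStep f v = f1 v) (h2 : ∀ v, refineStep f1 v = f2 v)
    (h3 : ∀ v, refineStep f2 v = f3 v) (h4 : Function.Injective f3) (v : Fin 15) : φ v = v := by
  have e1 : ∀ v, f1 (φ v) = f1 v := fun v => by
    rw [← h1, ← h1]; exact refine_preserved φ f h v
  have e2 : ∀ v, f2 (φ v) = f2 v := fun v => by
    rw [← h2, ← h2]; exact refine_preserved φ f1 e1 v
  have e3 : ∀ v, f3 (φ v) = f3 v := fun v => by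
    rw [← h3, ← h3]; exact refine_preserved φ f2 e2 v
  exact h4 (e3 v)

/-- the colouring with classes `{1, 9, 11, 13}` and the rest -/
def a0 : Fin 15 → ℕ := ![0, 1, 0, 0, 0, 0, 0, 0, 0, 1, 0, 1, 0, 1, 0]
/-- first refinement -/
def a1 : Fin 15 → ℕ := ![6, 7, 3, 5, 2, 2, 5, 2, 2, 6, 1, 6, 1, 6, 1]
/-- second refinement -/
def a2 : Fin 15 → ℕ := ![124, 82, 91, 79, 41, 41, 74, 41, 52, 67, 42, 56, 31, 56, 31]
/-- third refinement -/
def a3 : Fin 15 → ℕ := ![16305, 24069, 13422, 14458, 8129, 7364, 7833, 8387, 17319, 15712, 15587,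
  6522, 6397, 5757, 5632]

/-- the colouring with `9 ↦ 1`, `11 ↦ 2`, `13 ↦ 3` and the rest `0` -/
def b0 : Fin 15 → ℕ := ![0, 0, 0, 0, 0, 0, 0, 0, 0, 1, 0, 2, 0, 3, 0]
/-- first refinement -/
def b1 : Fin 15 → ℕ := ![5, 2, 2, 8, 2, 2, 13, 2, 2, 6, 1, 11, 1, 16, 1]
/-- second refinement -/
def b2 : Fin 15 → ℕ := ![74, 41, 80, 174, 80, 185, 334, 185, 41, 56, 31, 120, 70, 250, 175]
/-- third refinement -/
def b3 : Fin 15 → ℕ := ![7833, 12083, 32359, 32974, 64903, 118883, 163249, 114164, 39908, 5757,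
  5632, 30877, 30627, 112807, 112432]

theorem rigid_a (φ : G ≃g G) (h : ∀ v, a0 (φ v) = a0 v) (v : Fin 15) : φ v = v :=
  rigid φ a0 a1 a2 a3 h (by decide +kernel) (by decide +kernel) (by decide +kernel)
    (by decide +kernel) v

theorem rigid_b (φ : G ≃g G) (h : ∀ v, b0 (φ v) = b0 v) (v : Fin 15) : φ v = v :=
  rigid φ b0 b1 b2 b3 h (by decide +kernel) (by decide +kernel) (by decide +kernel)
    (by decide +kernel) v

/-! ### automorphisms -/

/-- swap the pendant vertices at `0` -/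
def s0 : Fin 15 → Fin 15 := ![0, 1, 2, 3, 4, 5, 6, 7, 8, 10, 9, 11, 12, 13, 14]
/-- swap the pendant vertices at `3` -/
def s3 : Fin 15 → Fin 15 := ![0, 1, 2, 3, 4, 5, 6, 7, 8, 9, 10, 12, 11, 13, 14]
/-- swap the pendant vertices at `6` -/
def s6 : Fin 15 → Fin 15 := ![0, 1, 2, 3, 4, 5, 6, 7, 8, 9, 10, 11, 12, 14, 13]

/-- the automorphisms exchanging `0` and `3` -/
def r03 (b : Bool) : Fin 15 → Fin 15 :=
  if b then ![3, 2, 1, 0, 8, 7, 6, 5, 4, 11, 12, 9, 10, 13, 14]
  else ![3, 2, 1, 0, 8, 7, 6, 5, 4, 12, 11, 10, 9, 13, 14]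
/-- the automorphisms exchanging `3` and `6` -/
def r36 (b : Bool) : Fin 15 → Fin 15 :=
  if b then ![0, 8, 7, 6, 5, 4, 3, 2, 1, 9, 10, 13, 14, 11, 12]
  else ![0, 8, 7, 6, 5, 4, 3, 2, 1, 9, 10, 14, 13, 12, 11]
/-- the automorphisms exchanging `0` and `6` -/
def r06 (b : Bool) : Fin 15 → Fin 15 :=
  if b then ![6, 5, 4, 3, 2, 1, 0, 8, 7, 13, 14, 11, 12, 9, 10]
  else ![6, 5, 4, 3, 2, 1, 0, 8, 7, 14, 13, 11, 12, 10, 9]

theorem swap_ne {d : ℕ} {c : Fin 15 → Fin d} (hc : IsDistinguishing G c) :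
    c 9 ≠ c 10 ∧ c 11 ≠ c 12 ∧ c 13 ≠ c 14 := by
  refine ⟨fun h => ?_, fun h => ?_, fun h => ?_⟩
  · have := kill hc s0 (by decide +kernel) (by decide +kernel)
      (by intro v; fin_cases v <;> simp [s0, h]) 9
    revert this; decide
  · have := kill hc s3 (by decide +kernel) (by decide +kernel)
      (by intro v; fin_cases v <;> simp [s3, h]) 11
    revert this; decide
  · have := kill hc s6 (by decide +kernel) (by decide +kernel)
      (by intro v; fin_cases v <;> simp [s6, h]) 13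
    revert this; decide

/-- `f` is an involutive automorphism exchanging `a` and `b`, fixing `e` and preserving the rest -/
def Good (f : Fin 15 → Fin 15) (a b e : Fin 15) : Prop :=
  (∀ x, f (f x) = x) ∧ (∀ x y, G.Adj (f x) (f y) ↔ G.Adj x y) ∧ f a = b ∧ f b = a ∧ f e = e ∧
    (∀ v, v ≠ a → v ≠ b → v ≠ e → f v ≠ a ∧ f v ≠ b ∧ f v ≠ e) ∧ a ≠ b

instance (f : Fin 15 → Fin 15) (a b e : Fin 15) : Decidable (Good f a b e) := by
  unfold Good; infer_instance

theorem good_kill {d : ℕ} {c : Fin 15 → Fin d} (hc : IsDistinguishing G c) {f : Fin 15 → Fin 15}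
    {a b e : Fin 15} (hf : Good f a b e) {k : Fin d}
    (hk : ∀ v, v ≠ a → v ≠ b → v ≠ e → c v = k) : c a ≠ c b := by
  intro hab
  obtain ⟨h1, h2, h3, h4, h5, h6, h7⟩ := hf
  have h8 : ∀ v, c (f v) = c v := by
    intro v
    by_cases ha : v = a
    · rw [ha, h3, hab]
    by_cases hb : v = b
    · rw [hb, h4, hab]
    by_cases he : v = e
    · rw [he, h5]
    obtain ⟨g1, g2, g3⟩ := h6 v ha hb he
    rw [hk v ha hb he, hk (f v) g1 g2 g3]
  have h9 := kill hc f h1 h2 h8 a
  rw [h3] at h9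
  exact h7 h9.symm

theorem good_exists (a b e : Fin 15) (ha : a = 9 ∨ a = 10) (hb : b = 11 ∨ b = 12)
    (he : e = 13 ∨ e = 14) :
    (∃ f, Good f a b e) ∧ (∃ f, Good f a e b) ∧ (∃ f, Good f b e a) := by
  have key : ∀ a b e : Fin 15, (a = 9 ∨ a = 10) → (b = 11 ∨ b = 12) → (e = 13 ∨ e = 14) →
      (Good (r03 true) a b e ∨ Good (r03 false) a b e) ∧
      (Good (r06 true) a e b ∨ Good (r06 false) a e b) ∧
      (Good (r36 true) b e a ∨ Good (r36 false) b e a) := by
    intro a b e ha hb he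
    rcases ha with rfl | rfl <;> rcases hb with rfl | rfl <;> rcases he with rfl | rfl <;>
      decide +kernel
  obtain ⟨h1, h2, h3⟩ := key a b e ha hb he
  exact ⟨h1.elim (fun h => ⟨_, h⟩) (fun h => ⟨_, h⟩), h2.elim (fun h => ⟨_, h⟩) (fun h => ⟨_, h⟩),
    h3.elim (fun h => ⟨_, h⟩) (fun h => ⟨_, h⟩)⟩

/-- with at most three colours, at least four vertices lie outside any colour class -/
theorem lower {d : ℕ} (hd : d ≤ 3) {c : Fin 15 → Fin d} (hc : IsDistinguishing G c) (k : Fin d) :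
    4 ≤ (univ.filter (fun v => c v ≠ k)).card := by
  by_contra hcon
  push Not at hcon
  obtain ⟨n1, n2, n3⟩ := swap_ne hc
  have pick : ∀ x y : Fin 15, c x ≠ c y → ∃ z, (z = x ∨ z = y) ∧ c z ≠ k := by
    intro x y h
    by_cases hx : c x = k
    · exact ⟨y, Or.inr rfl, fun hy => h (hx.trans hy.symm)⟩
    · exact ⟨x, Or.inl rfl, hx⟩
  obtain ⟨a, ha, hak⟩ := pick 9 10 n1
  obtain ⟨b, hb, hbk⟩ := pick 11 12 n2
  obtain ⟨e, he, hek⟩ := pick 13 14 n3
  have hab : a ≠ b := by rintro rfl; revert ha hb; fin_cases a <;> simp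
  have hae : a ≠ e := by rintro rfl; revert ha he; fin_cases a <;> simp
  have hbe : b ≠ e := by rintro rfl; revert hb he; fin_cases b <;> simp
  have hcard : ({a, b, e} : Finset (Fin 15)).card = 3 := by
    rw [card_insert_of_notMem, card_insert_of_notMem, card_singleton]
    · simpa using hbe
    · simp [hab, hae]
  have hsub : ({a, b, e} : Finset (Fin 15)) ⊆ univ.filter (fun v => c v ≠ k) := by
    intro v hv
    simp only [mem_insert, mem_singleton] at hv
    simp only [mem_filter, mem_univ, true_and]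
    rcases hv with rfl | rfl | rfl <;> assumption
  have heq := Finset.eq_of_subset_of_card_le hsub (by rw [hcard]; omega)
  have hk : ∀ v, v ≠ a → v ≠ b → v ≠ e → c v = k := by
    intro v h1 h2 h3
    by_contra h4
    have : v ∈ ({a, b, e} : Finset (Fin 15)) := by
      rw [heq]; simp [h4]
    simp only [mem_insert, mem_singleton] at this
    rcases this with h | h | h <;> contradiction
  obtain ⟨⟨f1, g1⟩, ⟨f2, g2⟩, ⟨f3, g3⟩⟩ := good_exists a b e ha hb he
  have m1 := good_kill hc g1 hk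
  have m2 := good_kill hc g2 (fun v h1 h2 h3 => hk v h1 h3 h2)
  have m3 := good_kill hc g3 (fun v h1 h2 h3 => hk v h3 h1 h2)
  rw [ne_eq, Fin.ext_iff] at m1 m2 m3 hak hbk hek
  have l1 := (c a).isLt
  have l2 := (c b).isLt
  have l3 := (c e).isLt
  have l4 := k.isLt
  omega

/-- at least three vertices lie outside any colour class -/
theorem lower3 {d : ℕ} {c : Fin 15 → Fin d} (hc : IsDistinguishing G c) (k : Fin d) :
    3 ≤ (univ.filter (fun v => c v ≠ k)).card := by
  obtain ⟨n1, n2, n3⟩ := swap_ne hc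
  have pick : ∀ x y : Fin 15, c x ≠ c y → ∃ z, (z = x ∨ z = y) ∧ c z ≠ k := by
    intro x y h
    by_cases hx : c x = k
    · exact ⟨y, Or.inr rfl, fun hy => h (hx.trans hy.symm)⟩
    · exact ⟨x, Or.inl rfl, hx⟩
  obtain ⟨a, ha, hak⟩ := pick 9 10 n1
  obtain ⟨b, hb, hbk⟩ := pick 11 12 n2
  obtain ⟨e, he, hek⟩ := pick 13 14 n3
  have hab : a ≠ b := by rintro rfl; revert ha hb; fin_cases a <;> simp
  have hae : a ≠ e := by rintro rfl; revert ha he; fin_cases a <;> simp
  have hbe : b ≠ e := by rintro rfl; revert hb he; fin_cases b <;> simp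
  have hcard : ({a, b, e} : Finset (Fin 15)).card = 3 := by
    rw [card_insert_of_notMem, card_insert_of_notMem, card_singleton]
    · simpa using hbe
    · simp [hab, hae]
  have hsub : ({a, b, e} : Finset (Fin 15)) ⊆ univ.filter (fun v => c v ≠ k) := by
    intro v hv
    simp only [mem_insert, mem_singleton] at hv
    simp only [mem_filter, mem_univ, true_and]
    rcases hv with rfl | rfl | rfl <;> assumption
  rw [← hcard]
  exact card_le_card hsub

/-- the colouring with classes `{1, 9, 11, 13}` and the rest, with `d ≥ 2` colours -/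
def colA (d : ℕ) (hd : 2 ≤ d) (v : Fin 15) : Fin d :=
  if v = 1 ∨ v = 9 ∨ v = 11 ∨ v = 13 then ⟨1, hd⟩ else ⟨0, by omega⟩

theorem colA_dist (d : ℕ) (hd : 2 ≤ d) : IsDistinguishing G (colA d hd) := by
  intro φ h v
  refine rigid_a φ (fun w => ?_) v
  have h1 : ∀ w, a0 w = (colA d hd w).val := by
    intro w
    fin_cases w <;> simp [a0, colA]
  rw [h1, h1, h]

theorem colA_card (d : ℕ) (hd : 2 ≤ d) :
    (univ.filter (fun v => colA d hd v ≠ ⟨0, by omega⟩)).card = 4 := by
  have h1 : (univ.filter (fun v => colA d hd v ≠ ⟨0, by omega⟩)) = {1, 9, 11, 13} := by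
    ext v
    simp only [mem_filter, mem_univ, true_and, mem_insert, mem_singleton]
    unfold colA
    split_ifs with h
    · simpa using h
    · simpa using h
  rw [h1]
  rfl

theorem colA_has (d : ℕ) (hd : 2 ≤ d) : 4 ∈ {k | ∃ c : Fin 15 → Fin d, IsDistinguishing G c ∧
    ∃ i : Fin d, (univ.filter (fun v => c v ≠ i)).card = k} :=
  ⟨colA d hd, colA_dist d hd, ⟨0, by omega⟩, colA_card d hd⟩

theorem paint_low (d : ℕ) (h2 : 2 ≤ d) (h3 : d ≤ 3) : paintCost G d = 4 := by
  unfold paintCost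
  refine le_antisymm (Nat.sInf_le (colA_has d h2)) ?_
  refine le_csInf ⟨4, colA_has d h2⟩ ?_
  rintro k ⟨c, hc, i, rfl⟩
  exact lower h3 hc i

/-- the colouring with classes `{9}`, `{11}`, `{13}` and the rest -/
def colB : Fin 15 → Fin 4 := ![0, 0, 0, 0, 0, 0, 0, 0, 0, 1, 0, 2, 0, 3, 0]

theorem colB_dist : IsDistinguishing G colB := by
  intro φ h v
  refine rigid_b φ (fun w => ?_) v
  have h1 : ∀ w, b0 w = (colB w).val := by decide +kernel
  rw [h1, h1, h]

theorem paint_four : paintCost G 4 = 3 := by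
  unfold paintCost
  have hm : 3 ∈ {k | ∃ c : Fin 15 → Fin 4, IsDistinguishing G c ∧
      ∃ i : Fin 4, (univ.filter (fun v => c v ≠ i)).card = k} :=
    ⟨colB, colB_dist, 0, by decide +kernel⟩
  refine le_antisymm (Nat.sInf_le hm) ?_
  refine le_csInf ⟨3, hm⟩ ?_
  rintro k ⟨c, hc, i, rfl⟩
  exact lower3 hc i

theorem dist_eq : distNumber G = 2 := by
  unfold distNumber
  have hm : 2 ∈ {d | ∃ c : Fin 15 → Fin d, IsDistinguishing G c} := ⟨colA 2 le_rfl, colA_dist 2 le_rfl⟩
  refine le_antisymm (Nat.sInf_le hm) ?_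
  refine le_csInf ⟨2, hm⟩ ?_
  rintro d ⟨c, hc⟩
  by_contra hd
  have h1 := (swap_ne hc).1
  have l1 := (c 9).isLt
  have l2 := (c 10).isLt
  rw [ne_eq, Fin.ext_iff] at h1
  omega

theorem fix_eq : fixNumber G = 3 := by
  unfold fixNumber
  have hm : 3 ∈ {k | ∃ S : Finset (Fin 15), S.card = k ∧ IsFixing G S} := by
    refine ⟨{9, 11, 13}, rfl, ?_⟩
    intro φ h v
    refine rigid_b φ ?_ v
    have h9 := h 9 (by simp)
    have h11 := h 11 (by simp)
    have h13 := h 13 (by simp)
    intro w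
    have key : ∀ x : Fin 15, x ≠ 9 → x ≠ 11 → x ≠ 13 → b0 x = 0 := by decide +kernel
    by_cases w9 : w = 9
    · rw [w9, h9]
    by_cases w11 : w = 11
    · rw [w11, h11]
    by_cases w13 : w = 13
    · rw [w13, h13]
    rw [key w w9 w11 w13]
    refine key _ ?_ ?_ ?_
    · intro hh
      exact w9 (φ.injective (hh.trans h9.symm))
    · intro hh
      exact w11 (φ.injective (hh.trans h11.symm))
    · intro hh
      exact w13 (φ.injective (hh.trans h13.symm))
  refine le_antisymm (Nat.sInf_le hm) ?_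
  refine le_csInf ⟨3, hm⟩ ?_
  rintro k ⟨S, rfl, hS⟩
  have fixkill : ∀ (f : Fin 15 → Fin 15) (h1 : ∀ x, f (f x) = x)
      (h2 : ∀ x y, G.Adj (f x) (f y) ↔ G.Adj x y), (∃ v, f v ≠ v) → ∃ v ∈ S, f v ≠ v := by
    intro f h1 h2 ⟨v, hv⟩
    by_contra hcon
    push Not at hcon
    exact hv (hS (invol f h1 h2) hcon v)
  obtain ⟨a, haS, ha⟩ := fixkill s0 (by decide +kernel) (by decide +kernel) ⟨9, by decide⟩
  obtain ⟨b, hbS, hb⟩ := fixkill s3 (by decide +kernel) (by decide +kernel) ⟨11, by decide⟩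
  obtain ⟨e, heS, he⟩ := fixkill s6 (by decide +kernel) (by decide +kernel) ⟨13, by decide⟩
  have q0 : ∀ x, s0 x ≠ x → x = 9 ∨ x = 10 := by decide +kernel
  have q3 : ∀ x, s3 x ≠ x → x = 11 ∨ x = 12 := by decide +kernel
  have q6 : ∀ x, s6 x ≠ x → x = 13 ∨ x = 14 := by decide +kernel
  have ha := q0 a ha
  have hb := q3 b hb
  have he := q6 e he
  have hab : a ≠ b := by rintro rfl; revert ha hb; fin_cases a <;> simp
  have hae : a ≠ e := by rintro rfl; revert ha he; fin_cases a <;> simp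
  have hbe : b ≠ e := by rintro rfl; revert hb he; fin_cases b <;> simp
  have hcard : ({a, b, e} : Finset (Fin 15)).card = 3 := by
    rw [card_insert_of_notMem, card_insert_of_notMem, card_singleton]
    · simpa using hbe
    · simp [hab, hae]
  rw [← hcard]
  refine card_le_card ?_
  intro v hv
  simp only [mem_insert, mem_singleton] at hv
  rcases hv with rfl | rfl | rfl <;> assumption

theorem frugal_eq : frugalNumber G = 4 := by
  unfold frugalNumber
  have hm : 4 ∈ {d | distNumber G ≤ d ∧ paintCost G d = fixNumber G} :=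
    ⟨by rw [dist_eq]; norm_num, by rw [paint_four, fix_eq]⟩
  refine le_antisymm (Nat.sInf_le hm) ?_
  refine le_csInf ⟨4, hm⟩ ?_
  rintro d ⟨h1, h2⟩
  by_contra hd
  rw [dist_eq] at h1
  rw [paint_low d h1 (by omega), fix_eq] at h2
  omega

/-- Q1 and Q2 both have the answer yes: there is a graph `G` with 15 vertices such that, for
`i = D(G)`, one has `i + 1 < F(G)`, `ρ^i(G) = ρ^{i+1}(G)` and `ρ^i(G)` is different from `Fix(G)`. -/
theorem result :
    ∃ (G : SimpleGraph (Fin 15)) (i : ℕ), i = distNumber G ∧ i + 1 < frugalNumber G ∧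
      paintCost G i = paintCost G (i + 1) ∧ paintCost G i ≠ fixNumber G := by
  refine ⟨G, 2, ?_, ?_, ?_, ?_⟩
  · rw [dist_eq]
  · rw [frugal_eq]; norm_num
  · rw [paint_low 2 le_rfl (by norm_num), paint_low 3 (by norm_num) le_rfl]
  · rw [paint_low 2 le_rfl (by norm_num), fix_eq]; norm_num

end Pool.Agent.Results.MP_8484b9_co.Plateau
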